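import Mathlib

set_option autoImplicit false

namespace Pool.Agent.K6.H86.EV

/-- first condition: every squarefree divisor `c ≠ 1` of `k` is excluded -/
def CondA (k : ℕ) : Prop :=
  ∀ c ∈ k.divisors, Squarefree c → c ≠ 1 → (Even c ∧ k % 4 = 2) ∨
    ∃ l ∈ (4 * k ^ 2 + 1).divisors, l.Prime ∧ ∀ r < l, ¬ (r ^ 2 ≡ c [MOD l])

/-- second condition: every divisor `D` of `4 k² + 1` such that neither `D` nor `(4 k² + 1) / D` is a
square is excluded -/
def CondB (k : ℕ) : Prop :=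
  ∀ D ∈ (4 * k ^ 2 + 1).divisors, IsSquare D ∨ IsSquare ((4 * k ^ 2 + 1) / D) ∨ (4 ∣ k ∧ D % 8 ≠ 1) ∨
    ∃ p ∈ k.divisors, p.Prime ∧ p ≠ 2 ∧ ∀ r < p, ¬ (r ^ 2 ≡ D [MOD p])

lemma nonres {l c : ℕ} (hl : l.Prime) (h : ∀ r < l, ¬ (r ^ 2 ≡ c [MOD l])) (X Y : ℤ)
    (hY : ¬ (l : ℤ) ∣ Y) (hXY : (l : ℤ) ∣ (c : ℤ) * Y ^ 2 - X ^ 2) : False := by
  have := Fact.mk hl
  have hY' : (Y : ZMod l) ≠ 0 := by
    intro h0
    exact hY ((ZMod.intCast_zmod_eq_zero_iff_dvd Y l).1 h0)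
  have h1 : ((((c : ℤ) * Y ^ 2 - X ^ 2 : ℤ)) : ZMod l) = 0 := (ZMod.intCast_zmod_eq_zero_iff_dvd _ l).2 hXY
  push_cast at h1
  have h2 : (c : ZMod l) = ((X : ZMod l) / Y) ^ 2 := by
    field_simp
    linear_combination h1
  obtain ⟨r, hr⟩ : ∃ r : ZMod l, r = (X : ZMod l) / Y := ⟨_, rfl⟩
  rw [← hr] at h2
  apply h r.val (ZMod.val_lt r)
  rw [← ZMod.natCast_eq_natCast_iff]
  push_cast
  rw [ZMod.natCast_zmod_val, h2]

lemma mod4 : ∀ k s c e g : ZMod 4, 2 * ((2 * k + 1) ^ 2 * (2 * s + 1) ^ 2) + (2 * c + 1) * e ^ 2 =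
    (2 * c + 1) * g ^ 2 → False := by decide +kernel

/-- Step 1: `u v` is a square. -/
lemma step1 {k : ℕ} (hk : 0 < k) (hA : CondA k) {u v w : ℕ} (hu : 0 < u) (hv : 0 < v) (huv : Nat.Coprime u v)
    (hw : u * v * (u * v + k ^ 2 * (u + v) ^ 2) = w ^ 2) : ∃ e, u * v = e ^ 2 := by
  obtain ⟨c, e, hce, hc⟩ := Nat.sq_mul_squarefree (u * v)
  have he : 0 < e := by
    rcases Nat.eq_zero_or_pos e with h | h
    · rw [h] at hce
      have := Nat.mul_pos hu hv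
      simp at hce
      omega
    · exact h
  have hc0 : 0 < c := Nat.pos_of_ne_zero hc.ne_zero
  -- `e ∣ w`
  have h1 : e ^ 2 * (c * (u * v + k ^ 2 * (u + v) ^ 2)) = w ^ 2 := by
    rw [← hw, ← hce]; ring
  have h2 : e ∣ w := by
    have : e ^ 2 ∣ w ^ 2 := ⟨_, h1.symm⟩
    exact (Nat.pow_dvd_pow_iff two_ne_zero).1 this
  obtain ⟨f, rfl⟩ := h2
  have h3 : c * (u * v + k ^ 2 * (u + v) ^ 2) = f ^ 2 := by
    have : e ^ 2 * (c * (u * v + k ^ 2 * (u + v) ^ 2)) = e ^ 2 * f ^ 2 := by rw [h1]; ring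
    exact Nat.eq_of_mul_eq_mul_left (by positivity) this
  have h4 : c ∣ f := by
    have : c ∣ f ^ 2 := ⟨_, h3.symm⟩
    exact (hc.dvd_pow_iff_dvd two_ne_zero).1 this
  obtain ⟨g, rfl⟩ := h4
  have h5 : u * v + k ^ 2 * (u + v) ^ 2 = c * g ^ 2 := by
    have : c * (u * v + k ^ 2 * (u + v) ^ 2) = c * (c * g ^ 2) := by rw [h3]; ring
    exact Nat.eq_of_mul_eq_mul_left hc0 this
  have hcuv : c ∣ u * v := ⟨e ^ 2, by rw [← hce]; ring⟩
  have hcop : Nat.Coprime c (u + v) := by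
    have h6 : Nat.Coprime (u * v) (u + v) := by
      apply Nat.Coprime.mul_left
      · simpa using huv
      · simpa using huv.symm
    exact Nat.Coprime.coprime_dvd_left hcuv h6
  have hck : c ∣ k := by
    have h6 : c ∣ k ^ 2 * (u + v) ^ 2 := by
      have h7 : c ∣ u * v + k ^ 2 * (u + v) ^ 2 := ⟨_, h5⟩
      exact (Nat.dvd_add_right hcuv).1 h7
    have h8 : c ∣ k ^ 2 := (Nat.Coprime.pow_right 2 hcop).dvd_of_dvd_mul_right h6
    exact (hc.dvd_pow_iff_dvd two_ne_zero).1 h8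
  by_cases hc1 : c = 1
  · exact ⟨e, by rw [← hce, hc1]; ring⟩
  exfalso
  rcases hA c (Nat.mem_divisors.2 ⟨hck, hk.ne'⟩) hc hc1 with ⟨hev, hk2⟩ | ⟨l, hl, hlp, hnr⟩
  · -- 2-adic
    have huvev : Even (u * v) := by
      obtain ⟨d, hd⟩ := hcuv
      rw [hd]
      exact hev.mul_right d
    have hsum : Odd (u + v) := by
      rcases Nat.even_or_odd u with h | h <;> rcases Nat.even_or_odd v with h' | h'
      · exfalso
        have := Nat.dvd_gcd h.two_dvd h'.two_dvd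
        rw [huv] at this
        omega
      · exact h.add_odd h'
      · exact h.add_even h'
      · exact absurd huvev (Nat.not_even_iff_odd.2 (h.mul h'))
    obtain ⟨c', hc'⟩ := hev
    have hc'odd : c' % 2 = 1 := by
      by_contra hcon
      have h9 : 2 * 2 ∣ c := by omega
      have := hc 2 h9
      exact absurd (Nat.isUnit_iff.1 this) (by norm_num)
    have h10 : k ^ 2 * (u + v) ^ 2 + c * e ^ 2 = c * g ^ 2 := by
      rw [← h5, ← hce]; ring
    obtain ⟨k', hk'⟩ : ∃ k', k = 4 * k' + 2 := ⟨k / 4, by omega⟩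
    obtain ⟨s', hs'⟩ := hsum
    have h11 : 2 * ((2 * k' + 1) ^ 2 * (2 * s' + 1) ^ 2) + c' * e ^ 2 = c' * g ^ 2 := by
      have h12 : 2 * (2 * ((2 * k' + 1) ^ 2 * (2 * s' + 1) ^ 2) + c' * e ^ 2) = 2 * (c' * g ^ 2) := by
        rw [hk', hs', hc'] at h10
        linarith [h10]
      exact Nat.eq_of_mul_eq_mul_left (by norm_num) h12
    obtain ⟨c2, hc2⟩ : ∃ c2, c' = 2 * c2 + 1 := ⟨c' / 2, by omega⟩
    rw [hc2] at h11
    have h13 := congrArg (Nat.cast : ℕ → ZMod 4) h11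
    push_cast at h13
    exact mod4 _ _ _ _ _ h13
  · have hlN := Nat.dvd_of_mem_divisors hl
    have hlNz : (l : ℤ) ∣ 4 * (k : ℤ) ^ 2 + 1 := by exact_mod_cast Int.natCast_dvd_natCast.2 hlN
    have e1 : (u : ℤ) * v = c * e ^ 2 := by
      have : u * v = c * e ^ 2 := by rw [← hce]; ring
      exact_mod_cast this
    have e2 : (u : ℤ) * v + k ^ 2 * (u + v) ^ 2 = c * g ^ 2 := by exact_mod_cast h5
    by_cases hd : (l : ℤ) ∣ (u : ℤ) - v
    · -- `c e² = u v ≡ u²`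
      have hle : ¬ (l : ℤ) ∣ (e : ℤ) := by
        intro h
        have h1 : (l : ℤ) ∣ (u : ℤ) * v := by rw [e1]; exact Dvd.dvd.mul_left (dvd_pow h two_ne_zero) _
        have hlp' : Prime (l : ℤ) := Nat.prime_iff_prime_int.1 hlp
        have h2 : (l : ℤ) ∣ u ∧ (l : ℤ) ∣ v := by
          rcases hlp'.dvd_or_dvd h1 with h3 | h3
          · exact ⟨h3, by simpa using dvd_sub h3 hd⟩
          · exact ⟨by simpa using dvd_add hd h3, h3⟩
        have h3 : l ∣ Nat.gcd u v := Nat.dvd_gcd (Int.natCast_dvd_natCast.1 h2.1) (Int.natCast_dvd_natCast.1 h2.2)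
        rw [huv] at h3
        exact hlp.one_lt.ne' (Nat.dvd_one.1 h3)
      refine nonres hlp hnr (u : ℤ) (e : ℤ) hle ?_
      obtain ⟨d, hd⟩ := hd
      refine ⟨-(u * d), ?_⟩
      linear_combination (-1 : ℤ) * e1 - (u : ℤ) * hd
    · have hl2k : ¬ (l : ℤ) ∣ 2 * (k : ℤ) * ((u : ℤ) - v) := by
        intro h
        have hlp' : Prime (l : ℤ) := Nat.prime_iff_prime_int.1 hlp
        rcases hlp'.dvd_or_dvd h with h3 | h3
        · have h4 : (l : ℤ) ∣ 1 := by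
            have h5 : (l : ℤ) ∣ (2 * (k : ℤ)) ^ 2 := dvd_pow h3 two_ne_zero
            have h6 := dvd_sub hlNz h5
            have h7 : 4 * (k : ℤ) ^ 2 + 1 - (2 * (k : ℤ)) ^ 2 = 1 := by ring
            rwa [h7] at h6
          have h5 : l ∣ 1 := by exact_mod_cast h4
          exact hlp.one_lt.ne' (Nat.dvd_one.1 h5)
        · exact hd h3
      refine nonres hlp hnr (2 * (c * g)) (2 * (k : ℤ) * ((u : ℤ) - v)) hl2k ?_
      -- c (2k)² (u-v)² - 4 c² g²
      obtain ⟨d, hd'⟩ := hlNz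
      refine ⟨c * d * (((u : ℤ) - v) ^ 2 - (u + v) ^ 2), ?_⟩
      linear_combination (4 * (c : ℤ)) * e2 + (c : ℤ) * (((u : ℤ) - v) ^ 2 - (u + v) ^ 2) * hd'

lemma cop {m n d : ℕ} (h : Nat.Coprime m n) (hd : m ^ 2 = n ^ 2 + d) : Nat.Coprime m d ∧ Nat.Coprime n d := by
  constructor
  · by_contra hcon
    obtain ⟨p, hp, h1, h2⟩ := Nat.Prime.not_coprime_iff_dvd.1 hcon
    have h3 : p ∣ n ^ 2 + d := by rw [← hd]; exact dvd_pow h1 two_ne_zero
    have h4 : p ∣ n := hp.dvd_of_dvd_pow ((Nat.dvd_add_left h2).1 h3)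
    have h5 := Nat.dvd_gcd h1 h4
    rw [h] at h5
    exact hp.one_lt.ne' (Nat.dvd_one.1 h5)
  · by_contra hcon
    obtain ⟨p, hp, h1, h2⟩ := Nat.Prime.not_coprime_iff_dvd.1 hcon
    have h3 : p ∣ m ^ 2 := by rw [hd]; exact dvd_add (dvd_pow h1 two_ne_zero) h2
    have h4 : p ∣ m := hp.dvd_of_dvd_pow h3
    have h5 := Nat.dvd_gcd h4 h1
    rw [h] at h5
    exact hp.one_lt.ne' (Nat.dvd_one.1 h5)

/-- Steps 2-5: the factorisation. -/
lemma step5 {k : ℕ} (hk : 0 < k) {a b f : ℕ} (ha : 0 < a) (hb : 0 < b) (hab : Nat.Coprime a b)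
    (hf : (a * b) ^ 2 + (k * (a ^ 2 + b ^ 2)) ^ 2 = f ^ 2) :
    ∃ x y z w t1 t2 t' D : ℕ, 0 < x ∧ 0 < y ∧ 0 < z ∧ 0 < w ∧ 0 < t1 ∧ 0 < t2 ∧ 0 < t' ∧
      t' * t1 * t2 = 2 * k ∧ a = x * y * t1 ∧ b = z * w * t2 ∧
      Nat.Coprime x y ∧ Nat.Coprime z w ∧ Nat.Coprime y z ∧
      z ^ 2 = t' * t1 ^ 2 * y ^ 2 + D * w ^ 2 ∧ y ^ 2 + t' * t2 ^ 2 * z ^ 2 = D * x ^ 2 := by
  have habp : 0 < a * b := Nat.mul_pos ha hb
  obtain ⟨S, hS⟩ : ∃ S, S = a ^ 2 + b ^ 2 := ⟨_, rfl⟩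
  rw [← hS] at hf
  have hSp : 0 < S := by rw [hS]; positivity
  -- `m / n = (f + k S) / (a b)`
  obtain ⟨g, m, n, hg, hmn, hm, hn⟩ := Nat.exists_coprime' (m := f + k * S) (n := a * b)
    (Nat.gcd_pos_of_pos_right _ habp)
  have hn0 : 0 < n := by
    rcases Nat.eq_zero_or_pos n with h | h
    · rw [h] at hn; omega
    · exact h
  have hm0 : 0 < m := by
    rcases Nat.eq_zero_or_pos m with h | h
    · rw [h] at hm
      have : 0 < k * S := Nat.mul_pos hk hSp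
      omega
    · exact h
  have hR : (a * b) * m ^ 2 = (a * b) * n ^ 2 + 2 * m * n * k * S := by
    have h1 : (a * b) * (f + k * S) ^ 2 = (a * b) * (a * b) ^ 2 + 2 * (f + k * S) * (a * b) * k * S := by
      have : (f + k * S) ^ 2 = (a * b) ^ 2 + 2 * (f + k * S) * k * S := by
        have h2 : (f + k * S) ^ 2 = f ^ 2 + 2 * f * (k * S) + (k * S) ^ 2 := by ring
        rw [h2, ← hf]; ring
      rw [this]; ring
    obtain ⟨P, hP⟩ : ∃ P, P = a * b := ⟨_, rfl⟩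
    rw [← hP] at hn h1 ⊢
    rw [hm] at h1
    have h3 : g ^ 2 * (P * m ^ 2) = g ^ 2 * (P * n ^ 2 + 2 * m * n * k * S) := by
      have h4 : P * (m * g) ^ 2 = P * (n * g) ^ 2 + 2 * (m * g) * (n * g) * k * S := by
        rw [← hn]; exact h1
      linarith [h4]
    exact Nat.eq_of_mul_eq_mul_left (by positivity) h3
  clear hm hn hf
  obtain ⟨d, hd⟩ : ∃ d, m ^ 2 = n ^ 2 + d := by
    have h1 : (a * b) * n ^ 2 ≤ (a * b) * m ^ 2 := by rw [hR]; exact Nat.le_add_right _ _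
    have h2 := Nat.le_of_mul_le_mul_left h1 habp
    exact ⟨m ^ 2 - n ^ 2, by omega⟩
  obtain ⟨hmd, hnd⟩ := cop hmn hd
  have hR2 : (a * b) * d = m * n * (2 * k * S) := by
    rw [hd] at hR
    have : (a * b) * n ^ 2 + (a * b) * d = (a * b) * n ^ 2 + m * n * (2 * k * S) := by
      rw [← mul_add, hR]; ring
    exact Nat.add_left_cancel this
  have hmnab : m * n ∣ a * b := by
    have h1 : m * n ∣ (a * b) * d := ⟨_, hR2⟩
    exact (Nat.Coprime.mul_left hmd hnd).dvd_of_dvd_mul_right h1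
  obtain ⟨t, ht⟩ := hmnab
  have ht0 : 0 < t := by
    rcases Nat.eq_zero_or_pos t with h | h
    · rw [h] at ht; omega
    · exact h
  have hR3 : t * d = 2 * k * S := by
    have : m * n * (t * d) = m * n * (2 * k * S) := by rw [← hR2, ht]; ring
    exact Nat.eq_of_mul_eq_mul_left (Nat.mul_pos hm0 hn0) this
  have haS : Nat.Coprime (a * b) S := by
    rw [hS]
    apply Nat.Coprime.mul_left
    · by_contra hcon
      obtain ⟨p, hp, h1, h2⟩ := Nat.Prime.not_coprime_iff_dvd.1 hcon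
      have h4 : p ∣ b := hp.dvd_of_dvd_pow ((Nat.dvd_add_right (dvd_pow h1 two_ne_zero)).1 h2)
      have h5 := Nat.dvd_gcd h1 h4
      rw [hab] at h5
      exact hp.one_lt.ne' (Nat.dvd_one.1 h5)
    · by_contra hcon
      obtain ⟨p, hp, h1, h2⟩ := Nat.Prime.not_coprime_iff_dvd.1 hcon
      have h4 : p ∣ a := hp.dvd_of_dvd_pow ((Nat.dvd_add_left (dvd_pow h1 two_ne_zero)).1 h2)
      have h5 := Nat.dvd_gcd h4 h1
      rw [hab] at h5
      exact hp.one_lt.ne' (Nat.dvd_one.1 h5)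
  have htS : Nat.Coprime t S := Nat.Coprime.coprime_dvd_left ⟨m * n, by rw [ht]; ring⟩ haS
  obtain ⟨t', ht'⟩ : t ∣ 2 * k := htS.dvd_of_dvd_mul_right ⟨d, hR3.symm⟩
  have ht'0 : 0 < t' := by
    rcases Nat.eq_zero_or_pos t' with h | h
    · rw [h] at ht'; omega
    · exact h
  have hdS : d = t' * S := by
    have : t * d = t * (t' * S) := by rw [hR3, ht']; ring
    exact Nat.eq_of_mul_eq_mul_left ht0 this
  -- the factorisation
  obtain ⟨x, a', z, hx, ha'z, hax, hmz⟩ := Nat.exists_coprime' (m := a) (n := m) (Nat.gcd_pos_of_pos_left _ ha)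
  have ha'0 : 0 < a' := by
    rcases Nat.eq_zero_or_pos a' with h | h
    · rw [h] at hax; omega
    · exact h
  have hz0 : 0 < z := by
    rcases Nat.eq_zero_or_pos z with h | h
    · rw [h] at hmz; omega
    · exact h
  have h1 : a' * b = z * n * t := by
    have : x * (a' * b) = x * (z * n * t) := by
      have h2 := ht
      rw [hax, hmz] at h2
      linarith [h2]
    exact Nat.eq_of_mul_eq_mul_left hx this
  obtain ⟨y, t1, w, hy, ht1w, ha'y, hnw⟩ := Nat.exists_coprime' (m := a') (n := n) (Nat.gcd_pos_of_pos_left _ ha'0)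
  have ht10 : 0 < t1 := by
    rcases Nat.eq_zero_or_pos t1 with h | h
    · rw [h] at ha'y; omega
    · exact h
  have hw0 : 0 < w := by
    rcases Nat.eq_zero_or_pos w with h | h
    · rw [h] at hnw; omega
    · exact h
  have h2 : t1 * b = z * w * t := by
    have : y * (t1 * b) = y * (z * w * t) := by
      have h3 := h1
      rw [ha'y, hnw] at h3
      linarith [h3]
    exact Nat.eq_of_mul_eq_mul_left hy this
  have ht1z : Nat.Coprime t1 z := Nat.Coprime.coprime_dvd_left ⟨y, ha'y⟩ ha'z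
  obtain ⟨t2, ht2⟩ : t1 ∣ t := (Nat.Coprime.mul_right ht1z ht1w).dvd_of_dvd_mul_left ⟨b, h2.symm⟩
  have ht20 : 0 < t2 := by
    rcases Nat.eq_zero_or_pos t2 with h | h
    · rw [h] at ht2; omega
    · exact h
  have hb2 : b = z * w * t2 := by
    have : t1 * b = t1 * (z * w * t2) := by rw [h2, ht2]; ring
    exact Nat.eq_of_mul_eq_mul_left ht10 this
  have ha2 : a = x * y * t1 := by rw [hax, ha'y]; ring
  have hxm : x ∣ m := ⟨z, by rw [hmz]; ring⟩
  have hzm : z ∣ m := ⟨x, hmz⟩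
  have hyn : y ∣ n := ⟨w, by rw [hnw]; ring⟩
  have hwn : w ∣ n := ⟨y, hnw⟩
  have cxy : Nat.Coprime x y := Nat.Coprime.coprime_dvd_left hxm (Nat.Coprime.coprime_dvd_right hyn hmn)
  have cxw : Nat.Coprime x w := Nat.Coprime.coprime_dvd_left hxm (Nat.Coprime.coprime_dvd_right hwn hmn)
  have czy : Nat.Coprime z y := Nat.Coprime.coprime_dvd_left hzm (Nat.Coprime.coprime_dvd_right hyn hmn)
  have czw : Nat.Coprime z w := Nat.Coprime.coprime_dvd_left hzm (Nat.Coprime.coprime_dvd_right hwn hmn)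
  -- the equation
  have hE : x ^ 2 * z ^ 2 = x ^ 2 * (t' * t1 ^ 2 * y ^ 2) + w ^ 2 * (y ^ 2 + t' * t2 ^ 2 * z ^ 2) := by
    have h3 := hd
    rw [hdS, hS, ha2, hb2, hmz, hnw] at h3
    linarith [h3]
  have hdvd : x ^ 2 ∣ y ^ 2 + t' * t2 ^ 2 * z ^ 2 := by
    have h3 : x ^ 2 ∣ w ^ 2 * (y ^ 2 + t' * t2 ^ 2 * z ^ 2) := by
      have h4 : x ^ 2 ∣ x ^ 2 * (t' * t1 ^ 2 * y ^ 2) + w ^ 2 * (y ^ 2 + t' * t2 ^ 2 * z ^ 2) := ⟨_, hE.symm⟩
      exact (Nat.dvd_add_right (Dvd.intro _ rfl)).1 h4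
    exact (Nat.Coprime.pow 2 2 cxw).dvd_of_dvd_mul_left h3
  obtain ⟨D, hD⟩ := hdvd
  refine ⟨x, y, z, w, t1, t2, t', D, hx, hy, hz0, hw0, ht10, ht20, ht'0, ?_, ha2, hb2, cxy, czw, czy.symm, ?_, ?_⟩
  · rw [ht', ht2]; ring
  · have h3 : x ^ 2 * z ^ 2 = x ^ 2 * (t' * t1 ^ 2 * y ^ 2 + D * w ^ 2) := by
      rw [hE, hD]; ring
    exact Nat.eq_of_mul_eq_mul_left (by positivity) h3
  · rw [hD]; ring

lemma mod8a : ∀ a b c : ZMod 8, a * b * c = 0 → a * b ^ 2 = 0 ∨ a * c ^ 2 = 0 := by decide +kernel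

lemma mod8b : ∀ z w D : ZMod 8, z ^ 2 = D * w ^ 2 → (4 * z ≠ 0 ∨ 4 * w ≠ 0) → 4 * D ≠ 0 → D = 1 := by
  decide +kernel

lemma four_cast {z : ℕ} : (4 * (z : ZMod 8) = 0) ↔ 2 ∣ z := by
  have h1 : (4 * (z : ZMod 8)) = ((4 * z : ℕ) : ZMod 8) := by push_cast; ring
  rw [h1, ZMod.natCast_eq_zero_iff]
  omega

/-- Step 6: `D` or `(4 k² + 1) / D` is a square. -/
lemma step6 {k : ℕ} (hk : 0 < k) (hB : CondB k) {x y z w t1 t2 t' D : ℕ} (hz : 0 < z)
    (hw : 0 < w) (ht : t' * t1 * t2 = 2 * k)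
    (cxy : Nat.Coprime x y) (czw : Nat.Coprime z w) (cyz : Nat.Coprime y z)
    (h1 : z ^ 2 = t' * t1 ^ 2 * y ^ 2 + D * w ^ 2) (h2 : y ^ 2 + t' * t2 ^ 2 * z ^ 2 = D * x ^ 2) :
    ∃ E, D * E = 4 * k ^ 2 + 1 ∧ (IsSquare D ∨ IsSquare E) ∧
      (4 * k ^ 2 + 1) * z ^ 2 = D * (w ^ 2 + t' * t1 ^ 2 * x ^ 2) ∧
      (4 * k ^ 2 + 1) * y ^ 2 + D * (t' * t2 ^ 2 * w ^ 2) = D * x ^ 2 := by
  have i1 : (4 * k ^ 2 + 1) * z ^ 2 = D * (w ^ 2 + t' * t1 ^ 2 * x ^ 2) := by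
    have h3 : 4 * k ^ 2 = t' * t1 ^ 2 * (t' * t2 ^ 2) := by
      have : 4 * k ^ 2 = (2 * k) ^ 2 := by ring
      rw [this, ← ht]; ring
    calc (4 * k ^ 2 + 1) * z ^ 2 = t' * t1 ^ 2 * (t' * t2 ^ 2 * z ^ 2) + z ^ 2 := by rw [h3]; ring
      _ = t' * t1 ^ 2 * (t' * t2 ^ 2 * z ^ 2) + (t' * t1 ^ 2 * y ^ 2 + D * w ^ 2) := by rw [← h1]
      _ = t' * t1 ^ 2 * (y ^ 2 + t' * t2 ^ 2 * z ^ 2) + D * w ^ 2 := by ring
      _ = t' * t1 ^ 2 * (D * x ^ 2) + D * w ^ 2 := by rw [h2]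
      _ = _ := by ring
  have i2 : (4 * k ^ 2 + 1) * y ^ 2 + D * (t' * t2 ^ 2 * w ^ 2) = D * x ^ 2 := by
    have h3 : 4 * k ^ 2 = t' * t1 ^ 2 * (t' * t2 ^ 2) := by
      have : 4 * k ^ 2 = (2 * k) ^ 2 := by ring
      rw [this, ← ht]; ring
    calc (4 * k ^ 2 + 1) * y ^ 2 + D * (t' * t2 ^ 2 * w ^ 2)
        = y ^ 2 + t' * t2 ^ 2 * (t' * t1 ^ 2 * y ^ 2 + D * w ^ 2) := by rw [h3]; ring
      _ = y ^ 2 + t' * t2 ^ 2 * z ^ 2 := by rw [← h1]
      _ = _ := h2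
  have hDN : D ∣ 4 * k ^ 2 + 1 := by
    have j1 : D ∣ (4 * k ^ 2 + 1) * z ^ 2 := ⟨_, i1⟩
    have j2 : D ∣ (4 * k ^ 2 + 1) * y ^ 2 := by
      have : D ∣ (4 * k ^ 2 + 1) * y ^ 2 + D * (t' * t2 ^ 2 * w ^ 2) := ⟨_, i2⟩
      exact (Nat.dvd_add_left (Dvd.intro _ rfl)).1 this
    have j3 := Nat.dvd_gcd j1 j2
    rw [Nat.gcd_mul_left, Nat.Coprime.pow 2 2 cyz.symm, mul_one] at j3
    exact j3
  obtain ⟨E, hE⟩ := hDN
  have hD0 : 0 < D := by
    rcases Nat.eq_zero_or_pos D with h | h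
    · rw [h] at hE; omega
    · exact h
  refine ⟨E, hE.symm, ?_, i1, i2⟩
  rcases hB D (Nat.mem_divisors.2 ⟨⟨E, hE⟩, by omega⟩) with h | h | ⟨h4, h8⟩ | ⟨p, hp, hpp, hp2, hnr⟩
  · exact Or.inl h
  · right
    rwa [hE, Nat.mul_div_cancel_left _ hD0] at h
  · exfalso
    apply h8
    have hDodd : 4 * (D : ZMod 8) ≠ 0 := by
      rw [Ne, four_cast]
      intro h
      have : 2 ∣ 4 * k ^ 2 + 1 := dvd_trans h ⟨E, hE⟩
      omega
    have h0 : (t' : ZMod 8) * t1 * t2 = 0 := by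
      have : ((t' * t1 * t2 : ℕ) : ZMod 8) = 0 := by
        rw [ht, ZMod.natCast_eq_zero_iff]
        omega
      push_cast at this
      exact this
    have e1 := congrArg (Nat.cast : ℕ → ZMod 8) h1
    have e2 := congrArg (Nat.cast : ℕ → ZMod 8) h2
    push_cast at e1 e2
    have hD1 : (D : ZMod 8) = 1 := by
      rcases mod8a _ _ _ h0 with h | h
      · rw [h, zero_mul, zero_add] at e1
        apply mod8b _ _ _ e1 _ hDodd
        by_contra hcon
        push Not at hcon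
        have := Nat.dvd_gcd (four_cast.1 hcon.1) (four_cast.1 hcon.2)
        rw [czw] at this
        omega
      · rw [h, zero_mul, add_zero] at e2
        apply mod8b _ _ _ e2 _ hDodd
        by_contra hcon
        push Not at hcon
        have := Nat.dvd_gcd (four_cast.1 hcon.1) (four_cast.1 hcon.2)
        rw [cxy.symm] at this
        omega
    have h9 : ((D : ℕ) : ZMod 8) = ((1 : ℕ) : ZMod 8) := by rw [hD1]; norm_num
    rw [ZMod.natCast_eq_natCast_iff'] at h9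
    omega
  · exfalso
    have hpk := Nat.dvd_of_mem_divisors hp
    have hpt : p ∣ t' * t1 * t2 := by rw [ht]; exact Dvd.dvd.mul_left hpk _
    have case1 : p ∣ t' * t1 ^ 2 → False := by
      intro h
      refine nonres hpp hnr (z : ℤ) (w : ℤ) ?_ ?_
      · intro h3
        have h3' : p ∣ w := Int.natCast_dvd_natCast.1 h3
        have h4 : p ∣ z ^ 2 := by
          rw [h1]
          exact dvd_add (Dvd.dvd.mul_right h _) (Dvd.dvd.mul_left (dvd_pow h3' two_ne_zero) _)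
        have h5 := Nat.dvd_gcd (hpp.dvd_of_dvd_pow h4) h3'
        rw [czw] at h5
        exact hpp.one_lt.ne' (Nat.dvd_one.1 h5)
      · obtain ⟨q, hq⟩ := h
        refine ⟨-(q * y ^ 2), ?_⟩
        have h1' : (z : ℤ) ^ 2 = t' * t1 ^ 2 * y ^ 2 + D * w ^ 2 := by exact_mod_cast h1
        have hq' : (t' : ℤ) * t1 ^ 2 = p * q := by exact_mod_cast hq
        linear_combination -h1' - (y : ℤ) ^ 2 * hq'
    have case2 : p ∣ t' * t2 ^ 2 → False := by
      intro h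
      refine nonres hpp hnr (y : ℤ) (x : ℤ) ?_ ?_
      · intro h3
        have h3' : p ∣ x := Int.natCast_dvd_natCast.1 h3
        have h4 : p ∣ y ^ 2 := by
          have h5 : p ∣ y ^ 2 + t' * t2 ^ 2 * z ^ 2 := by
            rw [h2]; exact Dvd.dvd.mul_left (dvd_pow h3' two_ne_zero) _
          exact (Nat.dvd_add_left (Dvd.dvd.mul_right h _)).1 h5
        have h5 := Nat.dvd_gcd h3' (hpp.dvd_of_dvd_pow h4)
        rw [cxy] at h5
        exact hpp.one_lt.ne' (Nat.dvd_one.1 h5)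
      · obtain ⟨q, hq⟩ := h
        refine ⟨q * z ^ 2, ?_⟩
        have h2' : (y : ℤ) ^ 2 + t' * t2 ^ 2 * z ^ 2 = D * x ^ 2 := by exact_mod_cast h2
        have hq' : (t' : ℤ) * t2 ^ 2 = p * q := by exact_mod_cast hq
        linear_combination -h2' + (z : ℤ) ^ 2 * hq'
    rcases (Nat.Prime.dvd_mul hpp).1 hpt with h | h
    · rcases (Nat.Prime.dvd_mul hpp).1 h with h | h
      · exact case1 (Dvd.dvd.mul_right h _)
      · exact case1 (Dvd.dvd.mul_left (dvd_pow h two_ne_zero) _)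
    · exact case2 (Dvd.dvd.mul_left (dvd_pow h two_ne_zero) _)

/-- The descent. -/
theorem no_sol {k : ℕ} (hk : 0 < k) (hA : CondA k) (hB : CondB k) : ∀ n u v : ℕ, u + v = n → 0 < u →
    0 < v → ∀ r, u * v * (u * v + k ^ 2 * (u + v) ^ 2) ≠ r ^ 2 := by
  intro n
  induction n using Nat.strong_induction_on with
  | _ n ih =>
    intro u v hn hu hv r hr
    by_cases hg : Nat.gcd u v = 1
    swap
    · obtain ⟨g, u', v', hg0, -, hu', hv'⟩ := Nat.exists_coprime' (m := u) (n := v) (Nat.gcd_pos_of_pos_left _ hu)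
      obtain ⟨u1, v1, hcop1, hu1, hv1⟩ := Nat.exists_coprime u v
      obtain ⟨G, hG⟩ : ∃ G, G = Nat.gcd u v := ⟨_, rfl⟩
      rw [← hG] at hu1 hv1 hg
      have hG0 : 0 < G := by rw [hG]; exact Nat.gcd_pos_of_pos_left _ hu
      have hG2 : 2 ≤ G := by omega
      have hu10 : 0 < u1 := by
        rcases Nat.eq_zero_or_pos u1 with h | h
        · rw [h] at hu1; omega
        · exact h
      have hv10 : 0 < v1 := by
        rcases Nat.eq_zero_or_pos v1 with h | h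
        · rw [h] at hv1; omega
        · exact h
      have h1 : (G ^ 2) ^ 2 * (u1 * v1 * (u1 * v1 + k ^ 2 * (u1 + v1) ^ 2)) = r ^ 2 := by
        rw [← hr, hu1, hv1]; ring
      have h2 : G ^ 2 ∣ r := by
        have : (G ^ 2) ^ 2 ∣ r ^ 2 := ⟨_, h1.symm⟩
        exact (Nat.pow_dvd_pow_iff two_ne_zero).1 this
      obtain ⟨r', rfl⟩ := h2
      have h3 : u1 * v1 * (u1 * v1 + k ^ 2 * (u1 + v1) ^ 2) = r' ^ 2 := by
        have : (G ^ 2) ^ 2 * (u1 * v1 * (u1 * v1 + k ^ 2 * (u1 + v1) ^ 2)) = (G ^ 2) ^ 2 * r' ^ 2 := by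
          rw [h1]; ring
        exact Nat.eq_of_mul_eq_mul_left (by positivity) this
      refine ih (u1 + v1) ?_ u1 v1 rfl hu10 hv10 r' h3
      rw [← hn, hu1, hv1]
      nlinarith
    obtain ⟨e, he⟩ := step1 hk hA hu hv hg hr
    obtain ⟨a, ha⟩ := exists_eq_pow_of_mul_eq_pow (a := u) (b := v) (c := e) (k := 2)
      (by rw [Nat.isUnit_iff]; exact hg) he
    obtain ⟨b, hb⟩ := exists_eq_pow_of_mul_eq_pow (a := v) (b := u) (c := e) (k := 2)
      (by rw [Nat.isUnit_iff]; exact (Nat.gcd_comm _ _).trans hg) ((mul_comm _ _).trans he)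
    have ha0 : 0 < a := by
      rcases Nat.eq_zero_or_pos a with h | h
      · rw [h] at ha; simp at ha; omega
      · exact h
    have hb0 : 0 < b := by
      rcases Nat.eq_zero_or_pos b with h | h
      · rw [h] at hb; simp at hb; omega
      · exact h
    have hab : Nat.Coprime a b := by
      have h1 : Nat.Coprime (a ^ 2) (b ^ 2) := by rw [← ha, ← hb]; exact hg
      exact (Nat.coprime_pow_left_iff (by norm_num) _ _).1 ((Nat.coprime_pow_right_iff (by norm_num) _ _).1 h1)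
    have h1 : (a * b) ^ 2 * ((a * b) ^ 2 + (k * (a ^ 2 + b ^ 2)) ^ 2) = r ^ 2 := by
      rw [← hr, ha, hb]; ring
    have h2 : a * b ∣ r := by
      have : (a * b) ^ 2 ∣ r ^ 2 := ⟨_, h1.symm⟩
      exact (Nat.pow_dvd_pow_iff two_ne_zero).1 this
    obtain ⟨f, rfl⟩ := h2
    have h3 : (a * b) ^ 2 + (k * (a ^ 2 + b ^ 2)) ^ 2 = f ^ 2 := by
      have : (a * b) ^ 2 * ((a * b) ^ 2 + (k * (a ^ 2 + b ^ 2)) ^ 2) = (a * b) ^ 2 * f ^ 2 := by
        rw [h1]; ring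
      exact Nat.eq_of_mul_eq_mul_left (by positivity) this
    obtain ⟨x, y, z, w, t1, t2, t', D, hx, hy, hz, hw, ht1, ht2, ht', htk, hax, hbx, cxy, czw, cyz, h4, h5⟩ :=
      step5 hk ha0 hb0 hab h3
    obtain ⟨E, hDE, hsq, i1, i2⟩ := step6 hk hB hz hw htk cxy czw cyz h4 h5
    have hk2 : 4 * k ^ 2 = t' * t1 ^ 2 * (t' * t2 ^ 2) := by
      have : 4 * k ^ 2 = (2 * k) ^ 2 := by ring
      rw [this, ← htk]; ring
    have hab2 : n = (x * y * t1) ^ 2 + (z * w * t2) ^ 2 := by rw [← hn, ha, hb, hax, hbx]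
    have hD0 : 0 < D := by
      rcases Nat.eq_zero_or_pos D with h | h
      · rw [h] at hDE; omega
      · exact h
    rcases hsq with ⟨s, hs⟩ | ⟨s, hs⟩
    · have hs0 : 0 < s := by
        rcases Nat.eq_zero_or_pos s with h | h
        · rw [h] at hs; omega
        · exact h
      have h6 : z ^ 2 = t' * t1 ^ 2 * y ^ 2 + (s * w) ^ 2 := by rw [h4, hs]; ring
      have hlt : s * w < z := by
        have : (s * w) ^ 2 < z ^ 2 := by
          rw [h6]
          have : 0 < t' * t1 ^ 2 * y ^ 2 := by positivity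
          omega
        exact lt_of_pow_lt_pow_left₀ 2 (Nat.zero_le _) this
      obtain ⟨U, hU⟩ : ∃ U, z = s * w + U := ⟨z - s * w, by omega⟩
      have hU0 : 0 < U := by omega
      have hUV : U * (U + 2 * (s * w)) = t' * t1 ^ 2 * y ^ 2 := by
        have : (s * w) ^ 2 + U * (U + 2 * (s * w)) = (s * w) ^ 2 + t' * t1 ^ 2 * y ^ 2 := by
          have h7 : (s * w) ^ 2 + U * (U + 2 * (s * w)) = z ^ 2 := by rw [hU]; ring
          rw [h7, h6]; ring
        exact Nat.add_left_cancel this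
      refine ih (U + (U + 2 * (s * w))) ?_ U (U + 2 * (s * w)) rfl hU0 (by omega) (t' * t1 ^ 2 * y * (s * x)) ?_
      · have h8 : U + (U + 2 * (s * w)) = 2 * z := by rw [hU]; ring
        rw [h8, hab2]
        have hsw : 1 ≤ s * w := Nat.mul_pos hs0 hw
        have hz2 : 2 ≤ z := by omega
        have g1 : 1 ≤ (x * y * t1) ^ 2 := Nat.pos_of_ne_zero (by positivity)
        have g2 : z ≤ z * w * t2 := by
          rw [mul_assoc]
          exact Nat.le_mul_of_pos_right _ (Nat.mul_pos hw ht2)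
        have g3 : z ^ 2 ≤ (z * w * t2) ^ 2 := Nat.pow_le_pow_left g2 2
        nlinarith
      · have h8 : U + (U + 2 * (s * w)) = 2 * z := by rw [hU]; ring
        rw [hUV, h8]
        have h9 : k ^ 2 * (2 * z) ^ 2 = t' * t1 ^ 2 * (t' * t2 ^ 2 * z ^ 2) := by
          have : k ^ 2 * (2 * z) ^ 2 = 4 * k ^ 2 * z ^ 2 := by ring
          rw [this, hk2]; ring
        have h10 : t' * t1 ^ 2 * y ^ 2 + k ^ 2 * (2 * z) ^ 2 = t' * t1 ^ 2 * (D * x ^ 2) := by
          rw [h9, ← h5]; ring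
        rw [h10, hs]; ring
    · have hs0 : 0 < s := by
        rcases Nat.eq_zero_or_pos s with h | h
        · rw [h] at hs; rw [hs] at hDE; simp at hDE
        · exact h
      have j1 : s ^ 2 * z ^ 2 = w ^ 2 + t' * t1 ^ 2 * x ^ 2 := by
        have : D * (s ^ 2 * z ^ 2) = D * (w ^ 2 + t' * t1 ^ 2 * x ^ 2) := by
          rw [← i1, ← hDE, hs]; ring
        exact Nat.eq_of_mul_eq_mul_left hD0 this
      have j2 : (s * y) ^ 2 + t' * t2 ^ 2 * w ^ 2 = x ^ 2 := by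
        have : D * ((s * y) ^ 2 + t' * t2 ^ 2 * w ^ 2) = D * x ^ 2 := by
          rw [← i2, ← hDE, hs]; ring
        exact Nat.eq_of_mul_eq_mul_left hD0 this
      have hlt : s * y < x := by
        have : (s * y) ^ 2 < x ^ 2 := by
          rw [← j2]
          have : 0 < t' * t2 ^ 2 * w ^ 2 := by positivity
          omega
        exact lt_of_pow_lt_pow_left₀ 2 (Nat.zero_le _) this
      obtain ⟨U, hU⟩ : ∃ U, x = s * y + U := ⟨x - s * y, by omega⟩
      have hU0 : 0 < U := by omega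
      have hUV : U * (U + 2 * (s * y)) = t' * t2 ^ 2 * w ^ 2 := by
        have : (s * y) ^ 2 + U * (U + 2 * (s * y)) = (s * y) ^ 2 + t' * t2 ^ 2 * w ^ 2 := by
          have h7 : (s * y) ^ 2 + U * (U + 2 * (s * y)) = x ^ 2 := by rw [hU]; ring
          rw [h7, ← j2]
        exact Nat.add_left_cancel this
      refine ih (U + (U + 2 * (s * y))) ?_ U (U + 2 * (s * y)) rfl hU0 (by omega) (t' * t2 ^ 2 * w * (s * z)) ?_
      · have h8 : U + (U + 2 * (s * y)) = 2 * x := by rw [hU]; ring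
        rw [h8, hab2]
        have hsw : 1 ≤ s * y := Nat.mul_pos hs0 hy
        have hz2 : 2 ≤ x := by omega
        have g1 : 1 ≤ (z * w * t2) ^ 2 := Nat.pos_of_ne_zero (by positivity)
        have g2 : x ≤ x * y * t1 := by
          rw [mul_assoc]
          exact Nat.le_mul_of_pos_right _ (Nat.mul_pos hy ht1)
        have g3 : x ^ 2 ≤ (x * y * t1) ^ 2 := Nat.pow_le_pow_left g2 2
        nlinarith
      · have h8 : U + (U + 2 * (s * y)) = 2 * x := by rw [hU]; ring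
        rw [hUV, h8]
        have h9 : k ^ 2 * (2 * x) ^ 2 = t' * t2 ^ 2 * (t' * t1 ^ 2 * x ^ 2) := by
          have : k ^ 2 * (2 * x) ^ 2 = 4 * k ^ 2 * x ^ 2 := by ring
          rw [this, hk2]; ring
        have h10 : t' * t2 ^ 2 * w ^ 2 + k ^ 2 * (2 * x) ^ 2 = t' * t2 ^ 2 * (s ^ 2 * z ^ 2) := by
          rw [h9, j1]; ring
        rw [h10]; ring

end Pool.Agent.K6.H86.EV
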