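import Mathlib

set_option autoImplicit false

namespace Pool.Agent.K6.H86.EV

open AffineSubspace

/-- the Euclidean plane -/
abbrev Plane := EuclideanSpace ℝ (Fin 2)

/-- `k` is the height/base ratio of an integer-edged triangle: there is a non-degenerate triangle
`A B C` in the Euclidean plane with integer side lengths such that the altitude from `A`, with foot `H` on
the line `B C`, satisfies `|A H| = k |B C|`. -/
def IsRatio (k : ℕ) : Prop :=
  ∃ A B C H : Plane, B ≠ C ∧ A ∉ line[ℝ, B, C] ∧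
    (∃ a b c : ℕ, dist B C = b ∧ dist C A = a ∧ dist A B = c) ∧
    H ∈ line[ℝ, B, C] ∧ inner ℝ (A - H) (C - B) = 0 ∧ dist A H = k * dist B C

lemma ratio_of_family (t : ℕ) (ht : 1 ≤ t) : IsRatio (t * (t + 2)) := by
  have ht' : (0 : ℝ) < t := by exact_mod_cast ht
  refine ⟨!₂[0, 2 * (t + 1) * t * (t + 2)], !₂[(t : ℝ) * (2 * t + 3), 0], !₂[((t : ℝ) + 2) * (2 * t + 1), 0],
    !₂[0, 0], ?_, ?_, ⟨(t + 2) * (2 * t ^ 2 + 2 * t + 1), 2 * (t + 1), t * (2 * t ^ 2 + 6 * t + 5), ?_, ?_, ?_⟩,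
    ?_, ?_, ?_⟩
  · -- B ≠ C
    intro h
    have h0 := congrArg (fun p : Plane => p 0) h
    simp at h0
    nlinarith
  · -- A ∉ BC
    intro h
    obtain ⟨r, hr⟩ := (mem_affineSpan_pair_iff_exists_lineMap_eq).1 h
    have h0 := congrArg (fun p : Plane => p 1) hr
    simp [AffineMap.lineMap_apply] at h0
    have h1 : (0 : ℝ) < (t + 1) * t * (t + 2) := by positivity
    rcases h0 with h0 | h0
    · rcases h0 with h0 | h0
      · linarith
      · linarith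
    · linarith
  · -- base
    rw [EuclideanSpace.dist_eq]
    simp only [Fin.sum_univ_two, Real.dist_eq, sq_abs]
    have : (2 * ((t : ℝ) + 1)) = Real.sqrt ((2 * ((t : ℝ) + 1)) ^ 2) := (Real.sqrt_sq (by positivity)).symm
    push_cast
    rw [this]
    congr 1
    simp
    ring
  · rw [EuclideanSpace.dist_eq]
    simp only [Fin.sum_univ_two, Real.dist_eq, sq_abs]
    have : (((t : ℝ) + 2) * (2 * t ^ 2 + 2 * t + 1)) = Real.sqrt ((((t : ℝ) + 2) * (2 * t ^ 2 + 2 * t + 1)) ^ 2) :=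
      (Real.sqrt_sq (by positivity)).symm
    push_cast
    rw [this]
    congr 1
    simp
    ring
  · rw [EuclideanSpace.dist_eq]
    simp only [Fin.sum_univ_two, Real.dist_eq, sq_abs]
    have : ((t : ℝ) * (2 * t ^ 2 + 6 * t + 5)) = Real.sqrt (((t : ℝ) * (2 * t ^ 2 + 6 * t + 5)) ^ 2) :=
      (Real.sqrt_sq (by positivity)).symm
    push_cast
    rw [this]
    congr 1
    simp
    ring
  · -- H ∈ BC
    rw [mem_affineSpan_pair_iff_exists_lineMap_eq]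
    refine ⟨-(t * (2 * t + 3)) / (2 * (t + 1)), ?_⟩
    ext i
    fin_cases i
    · simp [AffineMap.lineMap_apply]
      field_simp
      ring
    · simp [AffineMap.lineMap_apply]
  · simp [PiLp.inner_apply, Fin.sum_univ_two]
  · rw [EuclideanSpace.dist_eq, EuclideanSpace.dist_eq]
    simp only [Fin.sum_univ_two, Real.dist_eq, sq_abs]
    have h1 : (2 * ((t : ℝ) + 1)) = Real.sqrt ((2 * ((t : ℝ) + 1)) ^ 2) := (Real.sqrt_sq (by positivity)).symm
    have h2 : (2 * ((t : ℝ) + 1) * t * (t + 2)) = Real.sqrt ((2 * ((t : ℝ) + 1) * t * (t + 2)) ^ 2) :=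
      (Real.sqrt_sq (by positivity)).symm
    have e1 : Real.sqrt ((((!₂[(t : ℝ) * (2 * t + 3), 0] : Plane) 0) - ((!₂[((t : ℝ) + 2) * (2 * t + 1), 0] : Plane) 0)) ^ 2 +
        (((!₂[(t : ℝ) * (2 * t + 3), 0] : Plane) 1) - ((!₂[((t : ℝ) + 2) * (2 * t + 1), 0] : Plane) 1)) ^ 2) =
        2 * ((t : ℝ) + 1) := by
      conv_rhs => rw [h1]
      congr 1
      simp
      ring
    have e2 : Real.sqrt ((((!₂[0, 2 * ((t : ℝ) + 1) * t * (t + 2)] : Plane) 0) - ((!₂[0, 0] : Plane) 0)) ^ 2 +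
        (((!₂[0, 2 * ((t : ℝ) + 1) * t * (t + 2)] : Plane) 1) - ((!₂[0, 0] : Plane) 1)) ^ 2) =
        2 * ((t : ℝ) + 1) * t * (t + 2) := by
      conv_rhs => rw [h2]
      congr 1
      simp
    rw [e1, e2]
    push_cast
    ring

/-- integers attached to a triangle with ratio `k` -/
lemma integers_of_ratio {k : ℕ} (hk : 0 < k) (h : IsRatio k) :
    ∃ u v r : ℕ, 0 < u ∧ 0 < v ∧ u * v * (u * v + k ^ 2 * (u + v) ^ 2) = r ^ 2 := by
  obtain ⟨A, B, C, H, hBC, hA, ⟨a, b, c, hb, ha, hc⟩, hH, hin, hd⟩ := h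
  have hkR : (1 : ℝ) ≤ k := by exact_mod_cast hk
  obtain ⟨x, hx⟩ := (mem_affineSpan_pair_iff_exists_lineMap_eq).1 hH
  have hHx : H = B + x • (C - B) := by
    rw [← hx, AffineMap.lineMap_apply]
    simp [add_comm]
  have hCne : A ≠ C := by
    rintro rfl
    exact hA (right_mem_affineSpan_pair ℝ B A)
  have hb0 : (0 : ℝ) < b := by
    rw [← hb]; exact dist_pos.2 hBC
  have ha0 : (0 : ℝ) < a := by
    rw [← ha]; exact dist_pos.2 hCne.symm
  have nP : ‖A - H‖ ^ 2 = k ^ 2 * (b : ℝ) ^ 2 := by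
    rw [← dist_eq_norm, hd, hb]; ring
  have nQ : ‖C - B‖ = b := by
    rw [← hb, dist_comm, dist_eq_norm]
  have e1 : (c : ℝ) ^ 2 = k ^ 2 * (b : ℝ) ^ 2 + x ^ 2 * (b : ℝ) ^ 2 := by
    have h1 : A - B = (A - H) + x • (C - B) := by rw [hHx]; abel
    rw [← hc, dist_eq_norm, h1, norm_add_sq_real, inner_smul_right, hin, norm_smul, nQ, nP, mul_pow,
      Real.norm_eq_abs, sq_abs]
    ring
  have e2 : (a : ℝ) ^ 2 = k ^ 2 * (b : ℝ) ^ 2 + (1 - x) ^ 2 * (b : ℝ) ^ 2 := by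
    have h1 : A - C = (A - H) + (x - 1) • (C - B) := by rw [hHx, sub_smul, one_smul]; abel
    rw [← ha, dist_comm, dist_eq_norm, h1, norm_add_sq_real, inner_smul_right, hin, norm_smul, nQ, nP, mul_pow,
      Real.norm_eq_abs, sq_abs]
    ring
  have heron : ((b : ℝ) ^ 2 - (c - a) ^ 2) * ((a + c) ^ 2 - b ^ 2) = 4 * k ^ 2 * b ^ 4 := by
    linear_combination (4 * (b : ℝ) ^ 2 - (2 * b ^ 2 + c ^ 2 - a ^ 2 + b ^ 2 * (2 * x - 1))) * e1 +
      (2 * (b : ℝ) ^ 2 + c ^ 2 - a ^ 2 + b ^ 2 * (2 * x - 1)) * e2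
  have hcb : (b : ℝ) ≤ c := by
    have h1 : (b : ℝ) ^ 2 ≤ c ^ 2 := by
      rw [e1]
      have h2 : (1 : ℝ) ≤ k ^ 2 := by nlinarith
      nlinarith [sq_nonneg (x * b), sq_nonneg (b : ℝ)]
    exact le_of_sq_le_sq h1 (by positivity)
  have heronZ : ((b : ℤ) ^ 2 - (c - a) ^ 2) * ((a + c) ^ 2 - b ^ 2) = 4 * k ^ 2 * b ^ 4 := by exact_mod_cast heron
  have hbZ : (0 : ℤ) < b := by exact_mod_cast hb0
  have haZ : (0 : ℤ) < a := by exact_mod_cast ha0
  have hcbZ : (b : ℤ) ≤ c := by exact_mod_cast hcb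
  have hkZ : (0 : ℤ) < k := by exact_mod_cast hk
  have hP : (0 : ℤ) < (a + c) ^ 2 - b ^ 2 := by nlinarith
  have hUV : (0 : ℤ) < (b + c - a) * (a + b - c) := by
    have h1 : (0 : ℤ) < ((b : ℤ) ^ 2 - (c - a) ^ 2) * ((a + c) ^ 2 - b ^ 2) := by rw [heronZ]; positivity
    have h2 := (mul_pos_iff_of_pos_right hP).1 h1
    have h3 : ((b : ℤ) + c - a) * (a + b - c) = (b : ℤ) ^ 2 - (c - a) ^ 2 := by ring
    rw [h3]; exact h2
  have hU : (0 : ℤ) < b + c - a ∧ (0 : ℤ) < a + b - c := by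
    rcases pos_and_pos_or_neg_and_neg_of_mul_pos hUV with h | h
    · exact h
    · exfalso; linarith [h.1, h.2]
  obtain ⟨u, hu⟩ := Int.eq_ofNat_of_zero_le hU.1.le
  obtain ⟨v, hv⟩ := Int.eq_ofNat_of_zero_le hU.2.le
  have hu0 : 0 < u := by
    have := hU.1; rw [hu] at this; exact_mod_cast this
  have hv0 : 0 < v := by
    have := hU.2; rw [hv] at this; exact_mod_cast this
  have key : ((u * v * (u * v + k ^ 2 * (u + v) ^ 2)) * b ^ 2 : ℤ) = ((u : ℤ) * v * (a + c)) ^ 2 := by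
    have h1 : (u : ℤ) + v = 2 * b := by linarith
    rw [h1, ← hu, ← hv]
    linear_combination (-(((b : ℤ) + c - a) * (a + b - c))) * heronZ
  have keyN : (u * v * (u * v + k ^ 2 * (u + v) ^ 2)) * b ^ 2 = (u * v * (a + c)) ^ 2 := by exact_mod_cast key
  have hbN : 0 < b := by exact_mod_cast hb0
  have hdv : b ∣ u * v * (a + c) := by
    have : b ^ 2 ∣ (u * v * (a + c)) ^ 2 := ⟨u * v * (u * v + k ^ 2 * (u + v) ^ 2), by rw [← keyN]; ring⟩
    exact (Nat.pow_dvd_pow_iff two_ne_zero).1 this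
  obtain ⟨r, hr⟩ := hdv
  refine ⟨u, v, r, hu0, hv0, ?_⟩
  have : b ^ 2 * (u * v * (u * v + k ^ 2 * (u + v) ^ 2)) = b ^ 2 * r ^ 2 := by
    rw [mul_comm, keyN, hr]; ring
  exact Nat.eq_of_mul_eq_mul_left (by positivity) this

end Pool.Agent.K6.H86.EV
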